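import Pool.Agent.Q100.NhPair
import Pool.Agent.Q100.NhDense

set_option autoImplicit false

/-!
# Two nontrivial Jordan blocks give strong numerical hypercyclicity
-/

universe u v

namespace Pool.Agent.Results.MP_51ad50_an.TwoJordanBlocks

/-- `T` is numerically hypercyclic: for some unit vector `x` and some functional `f` of norm one
with `f x = 1` the numbers `f (Tⁿ x)`, `n ≥ 0`, are dense in `ℂ`. -/
def NumericallyHypercyclic {X : Type*} [NormedAddCommGroup X] [NormedSpace ℂ X]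
    (T : X →L[ℂ] X) : Prop :=
  ∃ (x : X) (f : X →L[ℂ] ℂ), ‖x‖ = 1 ∧ ‖f‖ = 1 ∧ f x = 1 ∧
    Dense (Set.range fun n : ℕ => f ((T ^ n) x))

/-- `T` and `S` are similar. -/
def Similar {X Y : Type*} [NormedAddCommGroup X] [NormedSpace ℂ X] [NormedAddCommGroup Y]
    [NormedSpace ℂ Y] (T : X →L[ℂ] X) (S : Y →L[ℂ] Y) : Prop :=
  ∃ J : X ≃L[ℂ] Y, ∀ x, J (T x) = S (J x)

/-- Main case: numerical hypercyclicity. -/
theorem main {X : Type*} [NormedAddCommGroup X] [NormedSpace ℂ X] (T : X →L[ℂ] X)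
    (l₁ l₂ : ℂ) (v₁ v₂ : X)
    (h1 : (T - l₁ • ContinuousLinearMap.id ℂ X) ((T - l₁ • ContinuousLinearMap.id ℂ X) v₁) = 0)
    (h1' : (T - l₁ • ContinuousLinearMap.id ℂ X) v₁ ≠ 0)
    (h2 : (T - l₂ • ContinuousLinearMap.id ℂ X) ((T - l₂ • ContinuousLinearMap.id ℂ X) v₂) = 0)
    (h2' : (T - l₂ • ContinuousLinearMap.id ℂ X) v₂ ≠ 0)
    (habs : ‖l₁‖ = ‖l₂‖) (hge : 1 ≤ ‖l₁‖)
    (hind : ∀ m₁ m₂ : ℤ, (l₁ / ‖l₁‖) ^ m₁ * (l₂ / ‖l₂‖) ^ m₂ = 1 → m₁ = 0 ∧ m₂ = 0) :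
    NumericallyHypercyclic T := by
  set u₁ : X := (T - l₁ • ContinuousLinearMap.id ℂ X) v₁ with hu₁
  set u₂ : X := (T - l₂ • ContinuousLinearMap.id ℂ X) v₂ with hu₂
  have Tv₁ : T v₁ = l₁ • v₁ + u₁ := by rw [hu₁]; simp
  have Tv₂ : T v₂ = l₂ • v₂ + u₂ := by rw [hu₂]; simp
  have Tu₁ : T u₁ = l₁ • u₁ := by
    have := h1
    simp only [sub_apply, smul_apply, ContinuousLinearMap.id_apply] at this
    exact sub_eq_zero.1 this
  have Tu₂ : T u₂ = l₂ • u₂ := by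
    have := h2
    simp only [sub_apply, smul_apply, ContinuousLinearMap.id_apply] at this
    exact sub_eq_zero.1 this
  have hr0 : 0 < ‖l₁‖ := by linarith
  have hl1 : l₁ ≠ 0 := norm_pos_iff.1 hr0
  have hl2 : l₂ ≠ 0 := norm_pos_iff.1 (habs ▸ hr0)
  have hne : l₁ ≠ l₂ := by
    intro h
    have := hind 1 (-1) (by
      rw [← h, zpow_one, zpow_neg_one, mul_inv_cancel₀]
      exact div_ne_zero hl1 (by exact_mod_cast hr0.ne'))
    exact one_ne_zero this.1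
  have hd : l₁ - l₂ ≠ 0 := sub_ne_zero.2 hne
  have hli : LinearIndependent ℂ ![u₁, v₁, u₂, v₂] := by
    rw [Fintype.linearIndependent_iff]
    intro g hg
    rw [Fin.sum_univ_four] at hg
    simp only [Matrix.cons_val_zero, Matrix.cons_val_one, Matrix.cons_val] at hg
    -- apply `(T - l₂)²`
    have hg1 := congrArg (fun x => T (T x) - (2 * l₂) • T x + (l₂ ^ 2) • x) hg
    simp only [map_add, map_smul, Tu₁, Tv₁, Tu₂, Tv₂, map_zero, smul_zero, sub_zero, add_zero] at hg1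
    have e1 : (g 0 * (l₁ - l₂) ^ 2 + 2 * g 1 * (l₁ - l₂)) • u₁ + (g 1 * (l₁ - l₂) ^ 2) • v₁ = 0 := by
      rw [← hg1]
      module
    have e2 := congrArg (fun x => T x - l₁ • x) e1
    simp only [map_add, map_smul, Tu₁, Tv₁, map_zero, smul_zero, sub_zero] at e2
    have e3 : (g 1 * (l₁ - l₂) ^ 2) • u₁ = 0 := by
      rw [← e2]
      module
    have g1 : g 1 = 0 := by
      rcases smul_eq_zero.1 e3 with h | h
      · exact (mul_eq_zero.1 h).resolve_right (pow_ne_zero 2 hd)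
      · exact absurd h h1'
    have g0 : g 0 = 0 := by
      rw [g1] at e1
      simp only [mul_zero, zero_mul, add_zero, zero_smul] at e1
      rcases smul_eq_zero.1 e1 with h | h
      · exact (mul_eq_zero.1 h).resolve_right (pow_ne_zero 2 hd)
      · exact absurd h h1'
    rw [g0, g1] at hg
    simp only [zero_smul, zero_add] at hg
    have e4 := congrArg (fun x => T x - l₂ • x) hg
    simp only [map_add, map_smul, Tu₂, Tv₂, map_zero, smul_zero, sub_zero] at e4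
    have e5 : (g 3) • u₂ = 0 := by
      rw [← e4]
      module
    have g3 : g 3 = 0 := (smul_eq_zero.1 e5).resolve_right h2'
    rw [g3, zero_smul, add_zero] at hg
    have g2 : g 2 = 0 := (smul_eq_zero.1 hg).resolve_right h2'
    intro i
    fin_cases i
    · exact g0
    · exact g1
    · exact g2
    · exact g3
  obtain ⟨κ, hκ, H⟩ := Q100.Nh.exists_pair u₁ v₁ u₂ v₂ hli
  -- arguments
  set r : ℝ := ‖l₁‖ with hr
  set σ : ℝ := (Complex.arg l₁ + Complex.arg l₂) / 2 with hσ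
  set θ : ℝ := (Complex.arg l₁ - Complex.arg l₂) / 2 with hθ
  have q1 : (r : ℂ) * Complex.exp ((σ + θ) * Complex.I) = l₁ := by
    have e : ((σ : ℂ) + θ) = (Complex.arg l₁ : ℂ) := by
      rw [hσ, hθ]
      push_cast
      ring
    rw [e]
    exact Complex.norm_mul_exp_arg_mul_I l₁
  have q2 : (r : ℂ) * Complex.exp ((σ - θ) * Complex.I) = l₂ := by
    have e : ((σ : ℂ) - θ) = (Complex.arg l₂ : ℂ) := by
      rw [hσ, hθ]
      push_cast
      ring
    rw [e, habs]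
    exact Complex.norm_mul_exp_arg_mul_I l₂
  have hrc : (r : ℂ) ≠ 0 := by exact_mod_cast hr0.ne'
  have p1 : l₁ / (‖l₁‖ : ℂ) = Complex.exp ((σ + θ) * Complex.I) := by
    rw [← hr, div_eq_iff hrc, mul_comm]
    exact q1.symm
  have p2 : l₂ / (‖l₂‖ : ℂ) = Complex.exp ((σ - θ) * Complex.I) := by
    rw [← habs, div_eq_iff hrc, mul_comm]
    exact q2.symm
  have hind' : ∀ k l : ℤ, Complex.exp ((k * σ + l * θ) * Complex.I) = 1 → k = 0 ∧ l = 0 := by
    intro k l hkl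
    have := hind (k + l) (k - l) (by
      rw [p1, p2, ← Complex.exp_int_mul, ← Complex.exp_int_mul, ← Complex.exp_add]
      have e : ((k + l : ℤ) : ℂ) * ((σ + θ) * Complex.I) + ((k - l : ℤ) : ℂ) * ((σ - θ) * Complex.I) =
          ((2 : ℕ) : ℂ) * ((k * σ + l * θ) * Complex.I) := by
        push_cast
        ring
      rw [e, Complex.exp_nat_mul, hkl, one_pow])
    omega
  have hc : 0 < κ / r := div_pos hκ hr0
  obtain ⟨δ, hδ, hdense⟩ := Q100.Nh.exists_dense r σ θ hge hind' (κ / r) hc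
  have hδr : r * ‖δ‖ ≤ κ := by
    rw [lt_div_iff₀ hr0] at hδ
    linarith
  obtain ⟨a₁, b₁, a₂, b₂, f, hx, hf, hfx, hf1, hf2, hz1, hz2⟩ := H (l₁ * δ)
    (l₂ * (starRingEnd ℂ) δ) (by rw [norm_mul, ← hr]; exact hδr)
    (by rw [norm_mul, RCLike.norm_conj, ← habs]; exact hδr)
  have Tn : ∀ (l : ℂ) (u v : X), T u = l • u → T v = l • v + u → ∀ (a b : ℂ) (n : ℕ),
      l • (T ^ n) (a • u + b • v) = (l ^ (n + 1)) • (a • u + b • v) + (n * l ^ n * b) • u := by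
    intro l u v hu hv a b n
    induction n with
    | zero => simp
    | succ n ih =>
      rw [pow_succ' T n, mul_apply_eq_comp, ← map_smul, ih]
      simp only [map_add, map_smul, hu, hv]
      push_cast
      module
  refine ⟨_, f, hx, hf, hfx, ?_⟩
  convert hdense using 2
  funext n
  have t1 := Tn l₁ u₁ v₁ Tu₁ Tv₁ a₁ b₁ n
  have t2 := Tn l₂ u₂ v₂ Tu₂ Tv₂ a₂ b₂ n
  have f1 : f ((T ^ n) (a₁ • u₁ + b₁ • v₁)) = l₁ ^ n * (1 / 2 + n * δ) := by
    have := congrArg f t1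
    rw [map_smul f, map_add f, map_smul f, map_smul f, hf1, smul_eq_mul, smul_eq_mul, smul_eq_mul,
      mul_assoc (n * l₁ ^ n), hz1] at this
    refine mul_left_cancel₀ hl1 (this.trans ?_)
    ring
  have f2 : f ((T ^ n) (a₂ • u₂ + b₂ • v₂)) = l₂ ^ n * (1 / 2 + n * (starRingEnd ℂ) δ) := by
    have := congrArg f t2
    rw [map_smul f, map_add f, map_smul f, map_smul f, hf2, smul_eq_mul, smul_eq_mul, smul_eq_mul,
      mul_assoc (n * l₂ ^ n), hz2] at this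
    refine mul_left_cancel₀ hl2 (this.trans ?_)
    ring
  rw [map_add, map_add, f1, f2]
  unfold Q100.Nh.V
  rw [q1, q2]

/-- **Two nontrivial Jordan blocks.** Let `T` be a bounded operator on a complex Banach space `X`
and let `l₁`, `l₂` satisfy `ker (T - lⱼ)² ≠ ker (T - lⱼ)`, `|l₁| = |l₂| ≥ 1` with `l₁/|l₁|`, `l₂/|l₂|`
independent in the circle. Then `T` is strongly numerically hypercyclic: every operator similar to
`T` is numerically hypercyclic. -/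
theorem result (X : Type u) [NormedAddCommGroup X] [NormedSpace ℂ X] [CompleteSpace X]
    (T : X →L[ℂ] X) (l₁ l₂ : ℂ)
    (h1 : (((T - l₁ • (1 : X →L[ℂ] X)) ^ 2 : X →L[ℂ] X) : X →ₗ[ℂ] X).ker ≠
      ((T - l₁ • (1 : X →L[ℂ] X) : X →L[ℂ] X) : X →ₗ[ℂ] X).ker)
    (h2 : (((T - l₂ • (1 : X →L[ℂ] X)) ^ 2 : X →L[ℂ] X) : X →ₗ[ℂ] X).ker ≠
      ((T - l₂ • (1 : X →L[ℂ] X) : X →L[ℂ] X) : X →ₗ[ℂ] X).ker)
    (habs : ‖l₁‖ = ‖l₂‖) (hge : 1 ≤ ‖l₁‖)
    (hind : ∀ m₁ m₂ : ℤ, (l₁ / ‖l₁‖) ^ m₁ * (l₂ / ‖l₂‖) ^ m₂ = 1 → m₁ = 0 ∧ m₂ = 0)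
    (Y : Type v) [NormedAddCommGroup Y] [NormedSpace ℂ Y] [CompleteSpace Y] (S : Y →L[ℂ] Y)
    (hS : Similar T S) : NumericallyHypercyclic S := by
  obtain ⟨J, hJ⟩ := hS
  have key : ∀ l : ℂ, (((T - l • (1 : X →L[ℂ] X)) ^ 2 : X →L[ℂ] X) : X →ₗ[ℂ] X).ker ≠
      ((T - l • (1 : X →L[ℂ] X) : X →L[ℂ] X) : X →ₗ[ℂ] X).ker →
      ∃ v : Y, (S - l • ContinuousLinearMap.id ℂ Y) ((S - l • ContinuousLinearMap.id ℂ Y) v) = 0 ∧
        (S - l • ContinuousLinearMap.id ℂ Y) v ≠ 0 := by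
    intro l hl
    obtain ⟨v, hv1, hv2⟩ : ∃ v : X, (T - l • (1 : X →L[ℂ] X)) ((T - l • (1 : X →L[ℂ] X)) v) = 0 ∧
        (T - l • (1 : X →L[ℂ] X)) v ≠ 0 := by
      by_contra hcon
      push Not at hcon
      apply hl
      refine le_antisymm ?_ ?_
      · intro v hv
        rw [LinearMap.mem_ker] at hv ⊢
        refine hcon v ?_
        have : ((T - l • (1 : X →L[ℂ] X)) ^ 2) v = 0 := hv
        rwa [pow_two, mul_apply_eq_comp] at this
      · intro v hv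
        rw [LinearMap.mem_ker] at hv ⊢
        have hv' : (T - l • (1 : X →L[ℂ] X)) v = 0 := hv
        change ((T - l • (1 : X →L[ℂ] X)) ^ 2) v = 0
        rw [pow_two, mul_apply_eq_comp, hv', map_zero]
    have hc : ∀ x, (S - l • ContinuousLinearMap.id ℂ Y) (J x) = J ((T - l • (1 : X →L[ℂ] X)) x) := by
      intro x
      simp [hJ]
    refine ⟨J v, ?_, ?_⟩
    · rw [hc, hc, hv1, map_zero]
    · rw [hc]
      intro h
      exact hv2 (J.injective (h.trans (map_zero J).symm))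
  obtain ⟨v₁, a1, a2⟩ := key l₁ h1
  obtain ⟨v₂, b1, b2⟩ := key l₂ h2
  exact main S l₁ l₂ v₁ v₂ a1 a2 b1 b2 habs hge hind

end Pool.Agent.Results.MP_51ad50_an.TwoJordanBlocks
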